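import Pool.Agent.H.MP_438bde_an.C

set_option autoImplicit false
open Set Metric Filter Topology

namespace Pool.Agent.H.MP_6c2b6a_an
open Pool.Agent.H.MP_438bde_an

theorem helly {V : Type*} [NormedAddCommGroup V] [NormedSpace ℝ V] (φ : (V →L[ℝ] ℝ) →L[ℝ] ℝ)
    (S : Finset (V →L[ℝ] ℝ)) : ∃ x : V, ‖x‖ ≤ ‖φ‖ + 1 ∧ ∀ h ∈ S, h x = φ h := by
  classical
  let Φ : V →L[ℝ] (S → ℝ) := ContinuousLinearMap.pi fun h => h.1
  have hK : ∀ c : (S → ℝ) →L[ℝ] ℝ, c (fun h => φ h.1) = φ (c.comp Φ) := fun c => by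
    have e : c.comp Φ = ∑ i : S, c (fun j => if i = j then 1 else 0) • i.1 := by
      ext x
      refine (c.toLinearMap.pi_apply_eq_sum_univ _).trans ?_
      simp [Φ, mul_comm]
    rw [e, map_sum]
    refine (c.toLinearMap.pi_apply_eq_sum_univ _).trans ?_
    simp [mul_comm]
  obtain ⟨x0, hx0⟩ : (fun h : S => φ h.1) ∈ Φ.range :=
    sep _ (Submodule.closed_of_finiteDimensional _) _ fun c hc => by
      rw [hK, show c.comp Φ = 0 from ContinuousLinearMap.ext fun x => hc _ ⟨x, rfl⟩, map_zero]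
  by_contra hc
  obtain ⟨g, u, h1, h2⟩ := geometric_hahn_banach_open (convex_ball (0 : V) (‖φ‖ + 1)) isOpen_ball
    ((convex_singleton (fun h : S => φ h.1)).linear_preimage Φ.toLinearMap)
    (Set.disjoint_left.2 fun x hx hx' => hc ⟨x, (mem_ball_zero_iff.1 hx).le, fun h hh =>
      congrFun hx' ⟨h, hh⟩⟩)
  have u0 : 0 < u := by simpa using h1 0 (mem_ball_self (by positivity))
  have h3 : g.toLinearMap ∈ LinearMap.range Φ.toLinearMap.dualMap := by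
    rw [LinearMap.range_dualMap_eq_dualAnnihilator_ker, Submodule.mem_dualAnnihilator]
    intro y hy
    have := lin0 (-(g.comp Φ.ker.subtypeL)) (g x0 - u) (fun z => by
      have := h2 (x0 + z) (by
        show Φ.toLinearMap (x0 + z) = _
        rw [map_add, hx0, z.2, add_zero])
      rw [map_add] at this
      show -g z ≤ _
      linarith) ⟨y, hy⟩
    exact neg_eq_zero.1 this
  obtain ⟨c, hc'⟩ := h3
  have h4 : (LinearMap.toContinuousLinearMap c).comp Φ = g :=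
    ContinuousLinearMap.ext fun x => LinearMap.congr_fun hc' x
  have h5 : g x0 = φ g := by
    rw [← h4, ← hK, ← hx0]; rfl
  have t0 : 0 < ‖φ‖ + 1 / 2 := by positivity
  have h6 := opn g _ (u / (‖φ‖ + 1 / 2)) t0 (by positivity) fun v hv => by
    rw [div_mul_cancel₀ _ t0.ne']
    exact (h1 v (by rw [mem_ball_zero_iff]; linarith)).le
  have h7 := (h2 x0 hx0).trans (h5.le.trans ((low φ g).2.trans
    (mul_le_mul_of_nonneg_left h6 (norm_nonneg φ))))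
  rw [← mul_div_assoc, le_div_iff₀ t0] at h7
  linarith

theorem nrm {V : Type*} [NormedAddCommGroup V] [NormedSpace ℝ V] (E : Submodule ℝ V)
    [FiniteDimensional ℝ E] : ∃ S : Finset (V →L[ℝ] ℝ), (∀ h ∈ S, ‖h‖ ≤ 1) ∧
      ∀ u ∈ E, u ≠ 0 → ∃ h ∈ S, ‖u‖ ≤ 2 * h u := by
  classical
  choose ν hν1 hν2 using fun x : V => exists_dual_vector'' ℝ x
  obtain ⟨t, -, ht⟩ := (isCompact_sphere (0 : E) 1).elim_nhds_subcover
    (fun v => {w | 1 / 2 < ν v w}) fun v hv => (isOpen_lt continuous_const (by fun_prop)).mem_nhds (by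
      show 1 / 2 < ν v v
      rw [hν2, show ‖(v : V)‖ = 1 from mem_sphere_zero_iff_norm.1 hv]; norm_num)
  refine ⟨t.image fun v : E => ν v, fun h hh => ?_, fun u hu h0 => ?_⟩
  · obtain ⟨v, -, rfl⟩ := Finset.mem_image.1 hh
    exact hν1 _
  · have n0 : 0 < ‖u‖ := norm_pos_iff.2 h0
    obtain ⟨v, hv, h⟩ := mem_iUnion₂.1 (ht (show (‖u‖⁻¹ • ⟨u, hu⟩ : E) ∈ sphere 0 1 by
      rw [mem_sphere_zero_iff_norm, norm_smul, norm_inv, norm_norm]
      exact inv_mul_cancel₀ n0.ne'))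
    refine ⟨_, Finset.mem_image_of_mem _ hv, ?_⟩
    have : 1 / 2 < ν v (‖u‖⁻¹ • u) := h
    rw [map_smul, smul_eq_mul, lt_inv_mul_iff₀ n0] at this
    linarith

theorem helly' {V : Type*} [NormedAddCommGroup V] [NormedSpace ℝ V] (φ : (V →L[ℝ] ℝ) →L[ℝ] ℝ) :
    ∃ C : ℝ, 0 ≤ C ∧ ∀ S : Finset (V →L[ℝ] ℝ), ∃ x : V, ‖x‖ ≤ C ∧ ∀ h ∈ S, h x = φ h :=
  ⟨_, by positivity, helly φ⟩

theorem exψ {V U : Type*} [NormedAddCommGroup V] [NormedSpace ℝ V] [CompleteSpace V]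
    [NormedAddCommGroup U] [NormedSpace ℝ U] (J : V →ₗᵢ[ℝ] U) (φ : U) (h : ∀ x, J x ≠ φ) :
    ∃ ψ : U →L[ℝ] ℝ, (∀ x, ψ (J x) = 0) ∧ ψ φ = 1 := by
  by_contra hc
  push Not at hc
  obtain ⟨x, hx⟩ := sep (LinearMap.range J.toLinearMap) J.isometry.isClosedEmbedding.isClosed_range
    φ fun ψ hψ => by
      by_contra h0
      exact hc ((ψ φ)⁻¹ • ψ) (fun x => by
        rw [_root_.smul_apply, hψ (J x) ⟨x, rfl⟩, smul_zero]) (inv_mul_cancel₀ h0)
  exact h x hx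

theorem sys {X : Type*} [NormedAddCommGroup X] [NormedSpace ℝ X] [CompleteSpace X]
    (φ : (X →L[ℝ] ℝ) →L[ℝ] ℝ) (hφ : ∀ x : X, ∃ f : X →L[ℝ] ℝ, φ f ≠ f x) :
    ∃ (C : ℝ) (x : ℕ → X) (f : ℕ → X →L[ℝ] ℝ) (E : ℕ → Submodule ℝ X)
      (S : ℕ → Finset (X →L[ℝ] ℝ)), (∀ n, ‖x n‖ ≤ C) ∧ (∀ n, ‖f n‖ ≤ C) ∧
      (∀ n, ∀ u ∈ E n, f n u = 0) ∧ (∀ m n, m < n → x m ∈ E n) ∧ (∀ m n, m ≤ n → f m (x n) = 1) ∧
      (∀ m n, m ≤ n → ∀ h ∈ S m, h (x n) = φ h) ∧ (∀ n, ∀ h ∈ S n, ‖h‖ ≤ 1) ∧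
      ∀ n, ∀ u ∈ E n, u ≠ 0 → ∃ h ∈ S n, ‖u‖ ≤ 2 * h u := by
  classical
  let J := NormedSpace.inclusionInDoubleDualLi ℝ (E := X)
  obtain ⟨ψ, h1, h2⟩ := exψ (U := (X →L[ℝ] ℝ) →L[ℝ] ℝ) J φ fun x hx => by
    obtain ⟨f, hf⟩ := hφ x
    exact hf (by rw [← hx]; rfl)
  obtain ⟨C, C0, hC⟩ := helly' (V := X →L[ℝ] ℝ) ψ
  obtain ⟨a, ha, hr⟩ := exists_seq_of_forall_finset_exists
    (α := X × (X →L[ℝ] ℝ) × Submodule ℝ X × Finset (X →L[ℝ] ℝ))
    (fun a => ‖a.1‖ ≤ ‖φ‖ + 1 ∧ ‖a.2.1‖ ≤ C ∧ (∀ u ∈ a.2.2.1, a.2.1 u = 0) ∧ φ a.2.1 = 1 ∧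
      a.2.1 a.1 = 1 ∧ (∀ h ∈ a.2.2.2, h a.1 = φ h) ∧ (∀ h ∈ a.2.2.2, ‖h‖ ≤ 1) ∧
      ∀ u ∈ a.2.2.1, u ≠ 0 → ∃ h ∈ a.2.2.2, ‖u‖ ≤ 2 * h u)
    (fun a b => a.1 ∈ b.2.2.1 ∧ a.2.1 b.1 = φ a.2.1 ∧ ∀ h ∈ a.2.2.2, h b.1 = φ h) fun s _ => by
      obtain ⟨f, f1, f2⟩ := hC (insert φ (s.image fun a => J a.1))
      have := FiniteDimensional.span_of_finite ℝ (s.finite_toSet.image Prod.fst)
      obtain ⟨S, S1, S2⟩ := nrm (Submodule.span ℝ (Prod.fst '' (s : Set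
        (X × (X →L[ℝ] ℝ) × Submodule ℝ X × Finset (X →L[ℝ] ℝ)))))
      obtain ⟨x, x1, x2⟩ := helly φ (insert f S ∪ s.biUnion fun a => insert a.2.1 a.2.2.2)
      have f3 : φ f = 1 := (f2 φ (Finset.mem_insert_self _ _)).trans h2
      refine ⟨(x, f, _, S), ⟨x1, f1, fun u hu => ?_, f3, (x2 f (by simp)).trans f3,
        fun h hh => x2 h (by simp [hh]), S1, S2⟩, fun a ha => ⟨Submodule.subset_span ⟨a, ha, rfl⟩,
        x2 _ (Finset.mem_union_right _ (Finset.mem_biUnion.2 ⟨a, ha, by simp⟩)), fun h hh =>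
        x2 _ (Finset.mem_union_right _ (Finset.mem_biUnion.2 ⟨a, ha, by simp [hh]⟩))⟩⟩
      refine (Submodule.span_le (p := f.ker)).2 ?_ hu
      rintro _ ⟨a, ha, rfl⟩
      exact (f2 _ (Finset.mem_insert_of_mem (Finset.mem_image_of_mem _ ha))).trans (h1 _)
  refine ⟨‖φ‖ + 1 + C, fun n => (a n).1, fun n => (a n).2.1, fun n => (a n).2.2.1,
    fun n => (a n).2.2.2, fun n => (ha n).1.trans (le_add_of_nonneg_right (by positivity)),
    fun n => (ha n).2.1.trans (le_add_of_nonneg_left (by positivity)), fun n => (ha n).2.2.1,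
    fun m n h => (hr m n h).1, fun m n h => ?_, fun m n h => ?_, fun n => (ha n).2.2.2.2.2.2.1,
    fun n => (ha n).2.2.2.2.2.2.2⟩
  · rcases h.eq_or_lt with rfl | h
    · exact (ha m).2.2.2.2.1
    · exact (hr m n h).2.1.trans (ha m).2.2.2.1
  · rcases h.eq_or_lt with rfl | h
    · exact (ha m).2.2.2.2.2.1
    · exact (hr m n h).2.2

theorem basis {X : Type*} [NormedAddCommGroup X] [NormedSpace ℝ X] [CompleteSpace X]
    (φ : (X →L[ℝ] ℝ) →L[ℝ] ℝ) (hφ : ∀ x : X, ∃ f : X →L[ℝ] ℝ, φ f ≠ f x) :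
    ∃ (C : ℝ) (y : ℕ → X) (f : ℕ → X →L[ℝ] ℝ) (W : Submodule ℝ X), IsClosed (W : Set X) ∧
      (∀ n, y n ∈ W) ∧ (∀ n, ‖y n‖ ≤ C) ∧ (∀ n k, f n (y k) = if n < k then 1 else 0) ∧ y 0 = 0 ∧
      ∀ v ∈ W, Tendsto (fun n => f n v) atTop (𝓝 0) ∧
        Tendsto (fun N => ∑ n ∈ Finset.range N, f n v • (y (n + 1) - y n)) atTop (𝓝 v) := by
  obtain ⟨C, x, f, E, S, h1, h2, h3, h4, h5, h6, h7, h8⟩ := sys φ hφ
  have C0 : 0 ≤ C := (norm_nonneg _).trans (h1 0)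
  let y : ℕ → X := fun k => Nat.casesOn k 0 x
  have y1 : ∀ k, ‖y k‖ ≤ C := by rintro (_ | k); exacts [by simpa [y] using C0, h1 k]
  have y2 : ∀ n k, k ≤ n → y k ∈ E n := by
    rintro n (_ | k) h; exacts [(E n).zero_mem, h4 k n h]
  have y3 : ∀ n k, f n (y k) = if n < k then 1 else 0 := fun n k => by
    split_ifs with h
    · obtain ⟨k, rfl⟩ := Nat.exists_eq_add_one_of_ne_zero (show k ≠ 0 by omega)
      exact h5 n k (by omega)
    · exact h3 n _ (y2 n k (not_lt.1 h))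
  let P : ℕ → X →L[ℝ] X := fun N => ∑ n ∈ Finset.range N, (f n).smulRight (y (n + 1) - y n)
  have hP : ∀ N v, P N v = ∑ n ∈ Finset.range N, f n v • (y (n + 1) - y n) := fun N v => by
    simp [P]
  have p1 : ∀ k N, P N (y k) = y (min N k) := fun k N => by
    rw [hP]
    induction N with
    | zero => simp [y]
    | succ N ih =>
      rw [Finset.sum_range_succ, ih, y3]
      split_ifs with h
      · rw [min_eq_left h.le, min_eq_left h]; simp
      · rw [min_eq_right (not_lt.1 h), min_eq_right (by omega)]; simp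
  have p2 : ∀ N v, P N v ∈ E N := fun N v => by
    rw [hP]
    exact (E N).sum_mem fun n hn => (E N).smul_mem _ ((E N).sub_mem
      (y2 _ _ (Finset.mem_range.1 hn)) (y2 _ _ (Finset.mem_range.1 hn).le))
  let W := (Submodule.span ℝ (range y)).topologicalClosure
  have p3 : ∀ N, ∀ v ∈ W, ‖P N v‖ ≤ (2 * (1 + C * ‖φ‖) + C * C) * ‖v‖ := fun N v hv => by
    have b0 : |f N v| ≤ C * ‖v‖ := (f N).le_of_opNorm_le (h2 N) v
    have b1 : ‖P N v - f N v • y N‖ ≤ 2 * (1 + C * ‖φ‖) * ‖v‖ := by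
      by_cases h0 : P N v - f N v • y N = 0
      · rw [h0, norm_zero]; positivity
      obtain ⟨h, hh, b2⟩ := h8 N _ ((E N).sub_mem (p2 N v) ((E N).smul_mem _ (y2 _ _ le_rfl))) h0
      have b3 : v ∈ (h - h.comp (P N - (f N).smulRight (y N)) - φ h • f N).ker := by
        refine Submodule.topologicalClosure_minimal _ (Submodule.span_le.2 ?_)
          (ContinuousLinearMap.isClosed_ker _) hv
        rintro _ ⟨k, rfl⟩
        show h (y k) - h (P N (y k) - f N (y k) • y N) - φ h * f N (y k) = 0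
        rw [p1, y3]
        split_ifs with hk
        · obtain ⟨k, rfl⟩ := Nat.exists_eq_add_one_of_ne_zero (show k ≠ 0 by omega)
          rw [min_eq_left hk.le, ← h6 N k (by omega) h hh]; simp [y]
        · rw [min_eq_right (not_lt.1 hk)]; simp
      have b4 : h v - h (P N v - f N v • y N) - φ h * f N v = 0 := b3
      have b5 : |h v| ≤ 1 * ‖v‖ := h.le_of_opNorm_le (h7 N h hh) v
      have b6 : |φ h| ≤ ‖φ‖ := φ.unit_le_opNorm h (h7 N h hh)
      have b7 := mul_le_mul b6 b0 (abs_nonneg _) (by positivity)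
      rw [← abs_mul] at b7
      linarith [le_abs_self (h v), neg_abs_le (φ h * f N v)]
    have b2 : ‖f N v • y N‖ ≤ C * ‖v‖ * C := by
      rw [norm_smul]; exact mul_le_mul b0 (y1 N) (norm_nonneg _) (by positivity)
    have b3 := norm_add_le (P N v - f N v • y N) (f N v • y N)
    rw [sub_add_cancel] at b3
    linarith
  have p4 : ∀ v ∈ W, Tendsto (fun N => P N v) atTop (𝓝 v) := fun v hv => by
    obtain ⟨K, K0, hK⟩ : ∃ K, 0 ≤ K ∧ ∀ N, ∀ v ∈ W, ‖P N v‖ ≤ K * ‖v‖ := ⟨_, by positivity, p3⟩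
    refine Metric.tendsto_nhds.2 fun ε hε => ?_
    obtain ⟨w, hw, h⟩ := Metric.mem_closure_iff.1 hv (ε / (K + 1)) (by positivity)
    rw [dist_eq_norm, lt_div_iff₀ (by positivity)] at h
    have b1 : ∀ᶠ N in atTop, P N w = w := by
      refine Submodule.span_induction (p := fun w _ => ∀ᶠ N in atTop, P N w = w) ?_ (by simp)
        (fun a b _ _ ha hb => ?_) (fun c a _ ha => ?_) hw
      · rintro _ ⟨k, rfl⟩
        filter_upwards [eventually_ge_atTop k] with N hN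
        rw [p1, min_eq_right hN]
      · filter_upwards [ha, hb] with N a1 a2
        rw [map_add, a1, a2]
      · filter_upwards [ha] with N a1
        rw [map_smul, a1]
    filter_upwards [b1] with N hN
    have b2 := hK N _ (W.sub_mem hv (Submodule.le_topologicalClosure _ hw))
    have b3 := norm_sub_le (P N (v - w)) (v - w)
    rw [map_sub, hN, sub_sub_sub_cancel_right] at b3
    rw [map_sub, hN] at b2
    rw [dist_eq_norm]
    linarith
  refine ⟨C, y, f, W, Submodule.isClosed_topologicalClosure _, fun n =>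
    Submodule.le_topologicalClosure _ (Submodule.subset_span ⟨n, rfl⟩), y1, y3, rfl,
    fun v hv => ⟨?_, by simpa only [hP] using p4 v hv⟩⟩
  refine squeeze_zero_norm (a := fun N => C * ‖P N v - v‖) (fun N => ?_) (by
    simpa using (tendsto_iff_norm_sub_tendsto_zero.1 (p4 v hv)).const_mul C)
  have := (f N).le_of_opNorm_le (h2 N) (P N v - v)
  rwa [map_sub, h3 N _ (p2 N v), zero_sub, norm_neg] at this

theorem quad {X : Type*} [NormedAddCommGroup X] [NormedSpace ℝ X] (y : ℕ → X) (ξ : ℕ → ℝ) (v : X)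
    (g : X →L[ℝ] ℝ) (σ : ℝ) (y0 : y 0 = 0)
    (h : Tendsto (fun N => ∑ n ∈ Finset.range N, ξ n • (y (n + 1) - y n)) atTop (𝓝 v))
    (h1 : ∀ n, ξ n = 2 * σ + g (y (n + 1)) + g (y n)) : -σ ^ 2 ≤ g v := by
  refine ge_of_tendsto' ((g.continuous.tendsto v).comp h) fun N => ?_
  have : g (∑ n ∈ Finset.range N, ξ n • (y (n + 1) - y n)) = (σ + g (y N)) ^ 2 - σ ^ 2 := by
    induction N with
    | zero => simp [y0]
    | succ N ih => rw [Finset.sum_range_succ, map_add, ih, map_smul, map_sub, h1, smul_eq_mul]; ring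
  show _ ≤ g _
  rw [this]
  linarith [sq_nonneg (σ + g (y N))]

end Pool.Agent.H.MP_6c2b6a_an
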